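import Pool.Agent.Helper66_KF.Stmts
import Pool.Agent.Helper75_PP.Quo
import Pool.Agent.Helper24_D2.Psb
import Pool.Agent.Helper20_PP.MatS

/-!
# Squad KF, module CDZ
-/

open scoped BigOperators

set_option linter.unusedSectionVars false

noncomputable section

namespace Pool.Agent.PP.KF.H32

open Pool.Agent.Helper51_AWC Pool.Agent.Helper79_WRA Pool.Agent.PP

variable {F A B : Type} [Field F] [Group A] [Group B] [Finite A] [Finite B]

theorem push_comp {C : Type} [Group C] [Finite C] (q : A →* C) (r : C →* B) (e : A → F) :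
    H75.push (r.comp q) e = H75.push r (H75.push q e) := by
  classical
  have := Fintype.ofFinite A
  have := Fintype.ofFinite C
  funext y
  have h1 : H75.push r (H75.push q e) y = ∑ c, H75.push q e c * (if r c = y then 1 else 0) := by
    rw [H75.push_eq]
    refine Finset.sum_congr rfl fun c _ => ?_
    split_ifs
    · rw [mul_one]
    · rw [mul_zero]
  rw [h1, H75.sum_push q e (fun c => if r c = y then 1 else 0), H75.push_eq]
  refine Finset.sum_congr rfl fun x _ => ?_
  change (if r (q x) = y then e x else 0) = _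
  split_ifs
  · rw [mul_one]
  · rw [mul_zero]

/-- a subgroup of order two is generated by an involution -/
theorem zp_of_card_two {A : Type} [Group A] (K : Subgroup A) (hK : Nat.card K = 2) :
    ∃ y : A, y ∈ K ∧ orderOf y = 2 ∧ K = Subgroup.zpowers y := by
  have : Fact (Nat.Prime 2) := ⟨Nat.prime_two⟩
  have hfin : Finite K := Nat.finite_of_card_ne_zero (by rw [hK]; norm_num)
  obtain ⟨y, hy⟩ := exists_prime_orderOf_dvd_card' 2 (G := K) (by rw [hK])
  have hy' : orderOf (y : A) = 2 := by rw [Subgroup.orderOf_coe, hy]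
  refine ⟨y, y.2, hy', ?_⟩
  symm
  apply Subgroup.eq_of_le_of_card_ge
  · rw [Subgroup.zpowers_le]
    exact y.2
  · rw [Nat.card_zpowers, hy', hK]

/-- blocks modulo a central subgroup of order two -/
theorem blk_two (hF : GoodF 2 F) (p : A →* B) (hp : Function.Surjective p)
    (hc : p.ker ≤ Subgroup.center A) (hk : Nat.card p.ker = 2) {e : A → F} (he : IsBlk e) :
    IsBlk (H75.push p e) := by
  have : Fact (Nat.Prime 2) := ⟨Nat.prime_two⟩
  obtain ⟨y, hy, ho, hz⟩ := zp_of_card_two p.ker hk
  exact CD2.H24.psb 2 F hF A B p hp y ho (hc hy) hz e he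

/-- blocks modulo a central subgroup of order four -/
theorem blk_four (hF : GoodF 2 F) (p : A →* B) (hp : Function.Surjective p)
    (hc : p.ker ≤ Subgroup.center A) (hk : Nat.card p.ker = 4) {e : A → F} (he : IsBlk e) :
    IsBlk (H75.push p e) := by
  have : Fact (Nat.Prime 2) := ⟨Nat.prime_two⟩
  obtain ⟨y, hy⟩ := exists_prime_orderOf_dvd_card' 2 (G := p.ker) (by rw [hk]; norm_num)
  have hy' : orderOf (y : A) = 2 := by rw [Subgroup.orderOf_coe, hy]
  have hyc : (y : A) ∈ Subgroup.center A := hc y.2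
  let Z : Subgroup A := Subgroup.zpowers (y : A)
  have hZc : Z ≤ Subgroup.center A := by rw [Subgroup.zpowers_le]; exact hyc
  have hZn : Z.Normal := by
    constructor
    intro n hn g
    have h1 := Subgroup.mem_center_iff.1 (hZc hn) g
    rw [h1, mul_inv_cancel_right]
    exact hn
  have hZk : Z ≤ p.ker := by rw [Subgroup.zpowers_le]; exact y.2
  let q : A →* A ⧸ Z := QuotientGroup.mk' Z
  have hq : Function.Surjective q := QuotientGroup.mk'_surjective Z
  let r : A ⧸ Z →* B := QuotientGroup.lift Z p (fun x hx => MonoidHom.mem_ker.1 (hZk hx))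
  have hrq : ∀ x, r (q x) = p x := fun x => rfl
  have hr : Function.Surjective r := by
    intro z
    obtain ⟨x, rfl⟩ := hp z
    exact ⟨q x, hrq x⟩
  have hqk : q.ker = Z := QuotientGroup.ker_mk' Z
  have hcard : Nat.card q.ker = 2 := by rw [hqk, Nat.card_zpowers, hy']
  have hrk : r.ker.comap q = p.ker := by
    ext x
    rw [Subgroup.mem_comap, MonoidHom.mem_ker, MonoidHom.mem_ker, hrq]
  have hcard2 : Nat.card r.ker = 2 := by
    have h1 := H75.card_comap hq r.ker
    rw [hrk, hk, hcard] at h1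
    omega
  have hrc : r.ker ≤ Subgroup.center (A ⧸ Z) := by
    intro z hz
    obtain ⟨x, rfl⟩ := hq z
    have hx : x ∈ p.ker := by
      rw [← hrk]
      exact hz
    rw [Subgroup.mem_center_iff]
    intro g
    obtain ⟨g, rfl⟩ := hq g
    rw [← map_mul, ← map_mul, Subgroup.mem_center_iff.1 (hc hx) g]
  have h1 : IsBlk (H75.push q e) := blk_two hF q hq (by rw [hqk]; exact hZc) hcard he
  have h2 : IsBlk (H75.push r (H75.push q e)) := blk_two hF r hr hrc hcard2 h1
  rw [← push_comp] at h2
  exact h2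

theorem prc (hF : GoodF 2 F) (p : A →* B) (hp : Function.Surjective p)
    (hc : p.ker ≤ Subgroup.center A) (hk : Nat.card p.ker = 4) {e : A → F} (he : IsCl e)
    (h8 : Bd8 e) : PrC 2 (H75.push p e) := by
  classical
  have : Fact (Nat.Prime 2) := ⟨Nat.prime_two⟩
  have := Fintype.ofFinite A
  have hchar := hF.char
  refine ⟨H75.push_isCl hp he, ?_⟩
  intro x hx
  obtain ⟨y, hy⟩ := exists_prime_orderOf_dvd_card' 2 hx
  have hy' : orderOf (y : B) = 2 := by rw [Subgroup.orderOf_coe, hy]
  have hyx : (y : B) * x = x * (y : B) :=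
    (Subgroup.mem_centralizer_singleton_iff.1 y.2)
  obtain ⟨q, hq⟩ := hp (y : B)
  have hq2 : q * q ∈ Subgroup.center A := by
    apply hc
    rw [MonoidHom.mem_ker, map_mul, hq, ← pow_two, ← hy', pow_orderOf_eq_one]
  have hno : ∀ z : A, p z = x → e z ≠ 0 → q * z * q⁻¹ ≠ z := by
    intro z hz hez hfix
    apply h8 z hez
    have h1 : (Subgroup.zpowers (y : B)).comap p ≤ Subgroup.centralizer ({z} : Set A) := by
      intro g hg
      rw [Subgroup.mem_comap, Subgroup.mem_zpowers_iff] at hg
      obtain ⟨k, hk⟩ := hg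
      rw [← hq, ← map_zpow] at hk
      have h2 : g * (q ^ k)⁻¹ ∈ Subgroup.center A := by
        apply hc
        rw [MonoidHom.mem_ker, map_mul, map_inv, hk, mul_inv_cancel]
      have h3 : g = (g * (q ^ k)⁻¹) * q ^ k := by rw [inv_mul_cancel_right]
      rw [h3]
      refine mul_mem ?_ ?_
      · exact Subgroup.center_le_centralizer _ h2
      · apply Subgroup.zpow_mem
        rw [Subgroup.mem_centralizer_singleton_iff]
        exact mul_inv_eq_iff_eq_mul.1 hfix
    have h2 := Subgroup.card_dvd_of_le h1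
    rw [H75.card_comap hp, hk, Nat.card_zpowers, hy'] at h2
    exact h2
  rw [H75.push_eq, ← Finset.sum_filter]
  apply Finset.sum_involution (fun z _ => q * z * q⁻¹)
  · intro z _
    rw [he]
    exact CharTwo.add_self_eq_zero _
  · intro z hz hez
    exact hno z (Finset.mem_filter.1 hz).2 hez
  · intro z hz
    rw [Finset.mem_filter] at hz ⊢
    refine ⟨Finset.mem_univ _, ?_⟩
    rw [map_mul, map_mul, map_inv, hz.2, hq, hyx, mul_inv_cancel_right]
  · intro z _
    have h1 := Subgroup.mem_center_iff.1 hq2 z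
    have h2 : q * (q * z * q⁻¹) * q⁻¹ = (q * q) * z * (q * q)⁻¹ := by
      rw [mul_inv_rev]
      simp only [mul_assoc]
    rw [h2, ← h1, mul_inv_cancel_right]

theorem rk_le_one {e : B → F} (h : ∀ z : B → F, IsCl z → ∃ w : F, mulF z e = w • e) :
    rk e (cfs F B) ≤ 1 := by
  classical
  have := Fintype.ofFinite B
  have hle : (cfs F B).map (actL e) ≤ Submodule.span F {fun x : B => e x⁻¹} := by
    rintro _ ⟨f, hf, rfl⟩
    have hz : IsCl (fun y : B => f y⁻¹) := by
      intro x y
      change f (y * x * y⁻¹)⁻¹ = f x⁻¹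
      have h1 : (y * x * y⁻¹)⁻¹ = y * x⁻¹ * y⁻¹ := by group
      rw [h1]
      exact hf _ _
    obtain ⟨w, hw⟩ := h _ hz
    rw [Submodule.mem_span_singleton]
    refine ⟨w, ?_⟩
    funext x
    change w * e x⁻¹ = actF e f x
    have h1 : mulF (fun y : B => f y⁻¹) e x⁻¹ = w * e x⁻¹ := congrFun hw x⁻¹
    rw [← h1]
    unfold mulF actF
    rw [finsum_eq_sum_of_fintype, finsum_eq_sum_of_fintype,
      ← Equiv.sum_comp ((Equiv.inv B).trans (Equiv.mulLeft x⁻¹))]
    refine Finset.sum_congr rfl fun t _ => ?_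
    change f (x⁻¹ * t⁻¹)⁻¹ * e ((x⁻¹ * t⁻¹)⁻¹ * x⁻¹) = e t * f (t * x)
    have h2 : (x⁻¹ * t⁻¹)⁻¹ = t * x := by group
    rw [h2, mul_inv_cancel_right, mul_comm]
  unfold rk
  refine (Submodule.finrank_mono hle).trans ?_
  exact (finrank_span_le_card _).trans (by simp)

theorem cdz : CdzStmt := by
  intro F _ hF A B _ _ _ _ p hp hc hk e he h8
  exact rk_le_one (H20.matS 2 F hF B (H75.push p e)
    ⟨blk_four hF p hp hc hk he, prc hF p hp hc hk he.1.1 h8⟩).2.2.2

end Pool.Agent.PP.KF.H32
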