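import Pool.Agent.Helper66_KF.Stmts
import Pool.Agent.Helper50_PP.Blk3
import Pool.Agent.Helper50_PP.Ffa
import Pool.Agent.Helper32_KF.Cdz

/-!
# Squad KF, module ST1
-/

open scoped BigOperators

set_option linter.unusedSectionVars false

noncomputable section

namespace Pool.Agent.PP.KF.H32

open Pool.Agent.Helper51_AWC Pool.Agent.Helper79_WRA Pool.Agent.PP

/-! ## Signs -/

theorem comb {ι : Type*} (S : Finset ι) (d : ι → ℕ) (eu ev : ι → ℤ)
    (hd : ∀ i ∈ S, 0 < d i) (hu : ∀ i ∈ S, eu i = 1 ∨ eu i = -1)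
    (hv : ∀ i ∈ S, ev i = 1 ∨ ev i = -1) (h4 : S.card ≤ 4) (hne : S.Nonempty)
    (h1 : ∑ i ∈ S, (d i : ℤ) ^ 2 * eu i = 0) (h2 : ∑ i ∈ S, (d i : ℤ) ^ 2 * ev i = 0)
    (h3 : ∑ i ∈ S, (d i : ℤ) ^ 2 * (eu i * ev i) = 0) :
    S.card = 4 ∧ ∃ a : ℕ, (∀ i ∈ S, d i = a) ∧ ∃ i ∈ S, eu i = 1 ∧ ev i = 1 := by
  classical
  set T : ℤ := ∑ i ∈ S, (d i : ℤ) ^ 2 with hT
  have hT0 : 0 < T := by
    obtain ⟨i, hi⟩ := hne
    refine Finset.sum_pos' (fun j _ => sq_nonneg _) ⟨i, hi, ?_⟩
    have := hd i hi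
    positivity
  let Fs : ℤ → ℤ → Finset ι := fun s t => S.filter (fun i => eu i = s ∧ ev i = t)
  have key : ∀ s t : ℤ, (s = 1 ∨ s = -1) → (t = 1 ∨ t = -1) →
      4 * ∑ i ∈ Fs s t, (d i : ℤ) ^ 2 = T := by
    intro s t hs ht
    have e1 : ∀ i ∈ S, 4 * (if eu i = s ∧ ev i = t then (d i : ℤ) ^ 2 else 0) =
        (d i : ℤ) ^ 2 + s * ((d i : ℤ) ^ 2 * eu i) + t * ((d i : ℤ) ^ 2 * ev i) +
          s * t * ((d i : ℤ) ^ 2 * (eu i * ev i)) := by
      intro i hi
      rcases hu i hi with h | h <;> rcases hv i hi with h' | h' <;>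
        rcases hs with rfl | rfl <;> rcases ht with rfl | rfl <;> rw [h, h'] <;> norm_num <;> ring
    rw [Finset.sum_filter, Finset.mul_sum, Finset.sum_congr rfl e1, Finset.sum_add_distrib,
      Finset.sum_add_distrib, Finset.sum_add_distrib, ← Finset.mul_sum, ← Finset.mul_sum,
      ← Finset.mul_sum, h1, h2, h3]
    ring
  have hne' : ∀ s t : ℤ, (s = 1 ∨ s = -1) → (t = 1 ∨ t = -1) → 1 ≤ (Fs s t).card := by
    intro s t hs ht
    rw [Nat.one_le_iff_ne_zero]
    intro h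
    have h5 := key s t hs ht
    rw [Finset.card_eq_zero.1 h, Finset.sum_empty] at h5
    omega
  have hcard : S.card = (Fs 1 1).card + (Fs 1 (-1)).card + (Fs (-1) 1).card +
      (Fs (-1) (-1)).card := by
    rw [Finset.card_filter, Finset.card_filter, Finset.card_filter, Finset.card_filter,
      ← Finset.sum_add_distrib, ← Finset.sum_add_distrib, ← Finset.sum_add_distrib,
      Finset.card_eq_sum_ones]
    refine Finset.sum_congr rfl fun i hi => ?_
    rcases hu i hi with h | h <;> rcases hv i hi with h' | h' <;> rw [h, h'] <;> norm_num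
  have c1 := hne' 1 1 (Or.inl rfl) (Or.inl rfl)
  have c2 := hne' 1 (-1) (Or.inl rfl) (Or.inr rfl)
  have c3 := hne' (-1) 1 (Or.inr rfl) (Or.inl rfl)
  have c4 := hne' (-1) (-1) (Or.inr rfl) (Or.inr rfl)
  have hc1 : ∀ s t : ℤ, (s = 1 ∨ s = -1) → (t = 1 ∨ t = -1) → (Fs s t).card = 1 := by
    intro s t hs ht
    rcases hs with rfl | rfl <;> rcases ht with rfl | rfl <;> omega
  have hsq : ∀ i ∈ S, 4 * (d i : ℤ) ^ 2 = T := by
    intro i hi
    have h5 := key (eu i) (ev i) (hu i hi) (hv i hi)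
    have h6 : i ∈ Fs (eu i) (ev i) := Finset.mem_filter.2 ⟨hi, rfl, rfl⟩
    obtain ⟨j, hj⟩ := Finset.card_eq_one.1 (hc1 (eu i) (ev i) (hu i hi) (hv i hi))
    rw [hj, Finset.mem_singleton] at h6
    rw [hj, Finset.sum_singleton, ← h6] at h5
    exact h5
  refine ⟨by omega, ?_⟩
  obtain ⟨j, hj⟩ := Finset.card_pos.1 (by omega : 0 < (Fs 1 1).card)
  obtain ⟨hjS, hj1, hj2⟩ := Finset.mem_filter.1 hj
  refine ⟨d j, ?_, j, hjS, hj1, hj2⟩
  intro i hi
  have h5 := hsq i hi
  have h6 := hsq j hjS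
  have h7 : (d i : ℤ) ^ 2 = (d j : ℤ) ^ 2 := by omega
  have h8 : (d i : ℤ) = (d j : ℤ) := by
    have a1 : (0 : ℤ) ≤ d i := Int.natCast_nonneg _
    have a2 : (0 : ℤ) ≤ d j := Int.natCast_nonneg _
    exact (sq_eq_sq₀ a1 a2).1 h7
  exact_mod_cast h8

/-! ## Characters at central elements -/

section cent

variable {H : Type} [Group H]

theorem central_scalar {n : ℕ} (ρ : Representation ℂ H (Fin n → ℂ)) (hρ : ρ.IsIrreducible)
    {z : H} (hz : z ∈ Subgroup.center H) :
    ρ z = (ρ.character z / ρ.character 1) • LinearMap.id := by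
  obtain ⟨c, hc⟩ := schur_scalar ρ (ρ z) (fun g => by
    have h1 : ρ z * ρ g = ρ g * ρ z := by
      rw [← map_mul, ← map_mul, Subgroup.mem_center_iff.1 hz g]
    exact h1)
  have h1 : ρ.character 1 ≠ 0 := irr_one_ne ⟨n, ρ, hρ, rfl⟩
  have h2 : ρ.character z = c * ρ.character 1 := by
    have h3 : LinearMap.trace ℂ (Fin n → ℂ) (ρ z) =
        c * LinearMap.trace ℂ (Fin n → ℂ) LinearMap.id := by
      rw [hc, map_smul, smul_eq_mul]
    have h4 : ρ.character 1 = LinearMap.trace ℂ (Fin n → ℂ) LinearMap.id := by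
      rw [Representation.character, map_one]; rfl
    rw [h4]
    exact h3
  rw [h2, mul_div_assoc, div_self h1, mul_one]
  exact hc

theorem central_mul {χ : H → ℂ} (hχ : χ ∈ Irr H) {z : H} (hz : z ∈ Subgroup.center H) (x : H) :
    χ (z * x) = χ z / χ 1 * χ x := by
  obtain ⟨n, ρ, hρ, rfl⟩ := hχ
  have h1 := central_scalar ρ hρ hz
  have h2 : ρ.character (z * x) = LinearMap.trace ℂ (Fin n → ℂ) (ρ z * ρ x) := by
    rw [← map_mul]; rfl
  rw [h2, h1, smul_mul_assoc, map_smul, smul_eq_mul]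
  rfl

/-- the sign of a central involution -/
theorem sign {χ : H → ℂ} (hχ : χ ∈ Irr H) {z : H} (hz : z ∈ Subgroup.center H)
    (h2 : z * z = 1) : ∃ s : ℤ, (s = 1 ∨ s = -1) ∧ χ z / χ 1 = s := by
  have h1 : χ 1 ≠ 0 := irr_one_ne hχ
  have h3 := central_mul hχ hz z
  rw [h2] at h3
  have h4 : (χ z / χ 1) ^ 2 = 1 := by
    rw [div_pow, div_eq_one_iff_eq (pow_ne_zero 2 h1)]
    field_simp at h3
    exact h3.symm
  rcases mul_self_eq_one_iff.1 ((pow_two _).symm.trans h4) with h | h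
  · exact ⟨1, Or.inl rfl, by rw [h]; norm_num⟩
  · exact ⟨-1, Or.inr rfl, by rw [h]; norm_num⟩

end cent

/-! ## The quotient -/

section quot

variable {A B : Type} [Group A] [Finite A] [Group B] [Finite B]

theorem push_one (p : A →* B) (hp : Function.Surjective p) (y : B) :
    H75.push p (fun _ => (1 : ℂ)) y = Nat.card p.ker := by
  classical
  have := Fintype.ofFinite A
  have := Fintype.ofFinite B
  obtain ⟨a, rfl⟩ := hp y
  rw [H75.push_eq, ← Finset.sum_filter, Finset.sum_const, nsmul_eq_mul, mul_one,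
    Nat.card_eq_fintype_card]
  congr 1
  rw [Fintype.card_subtype]
  refine Finset.card_bij (fun x _ => x * a⁻¹) ?_ ?_ ?_
  · intro x hx
    rw [Finset.mem_filter] at hx ⊢
    refine ⟨Finset.mem_univ _, ?_⟩
    rw [MonoidHom.mem_ker, map_mul, map_inv, hx.2, mul_inv_cancel]
  · intro x _ y _ h
    exact mul_right_cancel h
  · intro x hx
    rw [Finset.mem_filter] at hx
    refine ⟨x * a, ?_, mul_inv_cancel_right _ _⟩
    rw [Finset.mem_filter]
    refine ⟨Finset.mem_univ _, ?_⟩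
    rw [map_mul, MonoidHom.mem_ker.1 hx.2, one_mul]

/-- characters of the quotient -/
theorem descend (p : A →* B) (hp : Function.Surjective p) {χ : A → ℂ} (hχ : χ ∈ Irr A)
    (hc : p.ker ≤ Subgroup.center A) (h1 : ∀ z ∈ p.ker, χ z = χ 1) :
    ∃ χ' ∈ Irr B, ∀ x, χ' (p x) = χ x := by
  classical
  have := Fintype.ofFinite A
  have := Fintype.ofFinite B
  obtain ⟨n, ρ, hρ, rfl⟩ := hχ
  have h0 : ρ.character 1 ≠ 0 := irr_one_ne ⟨n, ρ, hρ, rfl⟩
  have htriv : ∀ z ∈ p.ker, ρ z = 1 := by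
    intro z hz
    rw [central_scalar ρ hρ (hc hz), h1 z hz, div_self h0, one_smul]
    rfl
  have hkey : ∀ x x', p x = p x' → ρ x = ρ x' := by
    intro x x' h
    have h1 : x'⁻¹ * x ∈ p.ker := by
      rw [MonoidHom.mem_ker, map_mul, map_inv, h, inv_mul_cancel]
    have h2 := htriv _ h1
    calc ρ x = ρ (x' * (x'⁻¹ * x)) := by rw [mul_inv_cancel_left]
      _ = ρ x' := by rw [map_mul, h2, mul_one]
  let s : B → A := Function.surjInv hp
  have hs : ∀ y, p (s y) = y := Function.surjInv_eq hp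
  let σ : Representation ℂ B (Fin n → ℂ) :=
    { toFun := fun y => ρ (s y)
      map_one' := by
        change ρ (s 1) = 1
        rw [← map_one ρ]
        apply hkey
        rw [hs, map_one]
      map_mul' := fun y z => by
        change ρ (s (y * z)) = ρ (s y) * ρ (s z)
        rw [← map_mul]
        apply hkey
        rw [hs, map_mul, hs, hs] }
  have hσ : ∀ x, σ (p x) = ρ x := fun x => hkey _ _ (hs _)
  have hch : ∀ x, σ.character (p x) = ρ.character x := by
    intro x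
    change LinearMap.trace ℂ (Fin n → ℂ) (σ (p x)) = LinearMap.trace ℂ (Fin n → ℂ) (ρ x)
    rw [hσ]
  refine ⟨σ.character, ?_, hch⟩
  apply mem_Irr_of_norm
  have h2 := irr_orth_self (χ := ρ.character) ⟨n, ρ, hρ, rfl⟩
  have h3 := H75.sum_push p (fun _ => (1 : ℂ)) (fun y => σ.character y * σ.character y⁻¹)
  have h4 : ∀ y, H75.push p (fun _ => (1 : ℂ)) y * (σ.character y * σ.character y⁻¹) =
      (Nat.card p.ker : ℂ) * (σ.character y * σ.character y⁻¹) := fun y => by rw [push_one p hp]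
  have h5 : ∀ x, (1 : ℂ) * (σ.character (p x) * σ.character (p x)⁻¹) =
      ρ.character x * ρ.character x⁻¹ := fun x => by rw [one_mul, ← map_inv, hch, hch]
  rw [Finset.sum_congr rfl (fun y _ => h4 y), ← Finset.mul_sum,
    Finset.sum_congr rfl (fun x _ => h5 x), h2] at h3
  have h6 : (Fintype.card A : ℂ) = Nat.card p.ker * Fintype.card B := by
    have h7 := H75.card_comap hp ⊤
    rw [Subgroup.comap_top, Subgroup.card_top, Subgroup.card_top] at h7
    rw [← Nat.card_eq_fintype_card, ← Nat.card_eq_fintype_card, h7]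
    push_cast
    ring
  rw [h6] at h3
  have h8 : (Nat.card p.ker : ℂ) ≠ 0 := by exact_mod_cast Nat.card_pos.ne'
  exact mul_left_cancel₀ h8 h3

/-- the degree of an irreducible character divides the order of the group -/
theorem codeg_int {χ : B → ℂ} (hχ : χ ∈ Irr B) : IsIntegral ℤ ((Nat.card B : ℂ) / χ 1) := by
  classical
  have := Fintype.ofFinite B
  have := Fintype.ofFinite (ConjClasses B)
  rw [Nat.card_eq_fintype_card, codeg_eq hχ]
  exact IsIntegral.sum _ fun K _ =>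
    (omega_integral (MonoidHom.id B) hχ _).mul (irr_integral hχ _)

end quot

/-- the group generated by two central involutions -/
theorem four {H : Type} [Group H] [Finite H] {u v : H} (hu : Inv2 u) (hv : Inv2 v) (huv : u ≠ v)
    (huc : u ∈ Subgroup.center H) (hvc : v ∈ Subgroup.center H) :
    ∃ (C B : Type) (_ : Group C) (_ : Finite C) (_ : Group B) (_ : Finite B) (q : H →* C)
      (r : C →* B), Function.Surjective q ∧ Function.Surjective r ∧
      q.ker ≤ Subgroup.center H ∧ r.ker ≤ Subgroup.center C ∧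
      (r.comp q).ker ≤ Subgroup.center H ∧ Nat.card q.ker = 2 ∧ Nat.card r.ker = 2 ∧
      Nat.card (r.comp q).ker = 4 ∧
      ∀ z ∈ (r.comp q).ker, z = 1 ∨ z = u ∨ z = v ∨ z = u * v := by
  classical
  have hou : orderOf u = 2 := orderOf_eq_prime (by rw [pow_two]; exact hu.sq) hu.ne
  have hzu : ∀ z ∈ Subgroup.zpowers u, z = 1 ∨ z = u := by
    intro z hz
    obtain ⟨k, rfl⟩ := (isOfFinOrder_of_finite u).mem_powers_iff_mem_zpowers.2 hz
    have h1 : u ^ k = u ^ (k % 2) := by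
      rw [← hou]
      exact (pow_mod_orderOf u k).symm
    change u ^ k = 1 ∨ u ^ k = u
    rw [h1]
    rcases Nat.mod_two_eq_zero_or_one k with h | h
    · left
      rw [h, pow_zero]
    · right
      rw [h, pow_one]
  let Z : Subgroup H := Subgroup.zpowers u
  have hZc : Z ≤ Subgroup.center H := by rw [Subgroup.zpowers_le]; exact huc
  have hZn : Z.Normal := by
    constructor
    intro n hn g
    rw [Subgroup.mem_center_iff.1 (hZc hn) g, mul_inv_cancel_right]
    exact hn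
  let q : H →* H ⧸ Z := QuotientGroup.mk' Z
  have hq : Function.Surjective q := QuotientGroup.mk'_surjective Z
  have hqk : q.ker = Z := QuotientGroup.ker_mk' Z
  have hqv2 : q v * q v = 1 := by rw [← map_mul, hv.sq, map_one]
  have hqv1 : q v ≠ 1 := by
    intro h
    have h1 : v ∈ q.ker := MonoidHom.mem_ker.2 h
    rw [hqk] at h1
    rcases hzu v h1 with h2 | h2
    · exact hv.ne h2
    · exact huv h2.symm
  have hov : orderOf (q v) = 2 := orderOf_eq_prime (by rw [pow_two]; exact hqv2) hqv1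
  have hqvc : q v ∈ Subgroup.center (H ⧸ Z) := by
    rw [Subgroup.mem_center_iff]
    intro g
    obtain ⟨g, rfl⟩ := hq g
    rw [← map_mul, ← map_mul, Subgroup.mem_center_iff.1 hvc g]
  let Y : Subgroup (H ⧸ Z) := Subgroup.zpowers (q v)
  have hYc : Y ≤ Subgroup.center (H ⧸ Z) := by rw [Subgroup.zpowers_le]; exact hqvc
  have hYn : Y.Normal := by
    constructor
    intro n hn g
    rw [Subgroup.mem_center_iff.1 (hYc hn) g, mul_inv_cancel_right]
    exact hn
  let r : H ⧸ Z →* (H ⧸ Z) ⧸ Y := QuotientGroup.mk' Y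
  have hr : Function.Surjective r := QuotientGroup.mk'_surjective Y
  have hrk : r.ker = Y := QuotientGroup.ker_mk' Y
  have hk : (r.comp q).ker = r.ker.comap q := by
    ext x
    rfl
  have hmem : ∀ z ∈ (r.comp q).ker, z = 1 ∨ z = u ∨ z = v ∨ z = u * v := by
    intro z hz
    rw [hk, Subgroup.mem_comap, hrk] at hz
    obtain ⟨k, hk⟩ := (isOfFinOrder_of_finite (q v)).mem_powers_iff_mem_zpowers.2 hz
    have h1 : (q v) ^ k = (q v) ^ (k % 2) := by
      rw [← hov]
      exact (pow_mod_orderOf (q v) k).symm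
    change (q v) ^ k = q z at hk
    rw [h1] at hk
    rcases Nat.mod_two_eq_zero_or_one k with h | h
    · rw [h, pow_zero] at hk
      have h2 : z ∈ q.ker := MonoidHom.mem_ker.2 hk.symm
      rw [hqk] at h2
      rcases hzu z h2 with h3 | h3
      · exact Or.inl h3
      · exact Or.inr (Or.inl h3)
    · rw [h, pow_one] at hk
      have h2 : z * v⁻¹ ∈ q.ker := by
        rw [MonoidHom.mem_ker, map_mul, map_inv, hk, mul_inv_cancel]
      rw [hqk] at h2
      rcases hzu _ h2 with h3 | h3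
      · exact Or.inr (Or.inr (Or.inl (mul_inv_eq_one.1 h3)))
      · exact Or.inr (Or.inr (Or.inr (mul_inv_eq_iff_eq_mul.1 h3)))
  refine ⟨H ⧸ Z, (H ⧸ Z) ⧸ Y, inferInstance, inferInstance, inferInstance, inferInstance, q, r,
    hq, hr, by rw [hqk]; exact hZc, by rw [hrk]; exact hYc, ?_, ?_, ?_, ?_, hmem⟩
  · intro z hz
    rcases hmem z hz with rfl | rfl | rfl | rfl
    · exact one_mem _
    · exact huc
    · exact hvc
    · exact mul_mem huc hvc
  · rw [hqk, Nat.card_zpowers, hou]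
  · rw [hrk, Nat.card_zpowers, hov]
  · rw [hk, H75.card_comap hq, hqk, hrk, Nat.card_zpowers, Nat.card_zpowers, hou, hov]

theorem st1 (cqu : CquStmt) (cdz : CdzStmt) (lin : LinStmt) (hgt : HgtStmt) : St1Stmt := by
  classical
  intro M _ hM2 H _ _ u v hu hv huv huc hvc b hb h8
  let _ : Field (FF M) := Ideal.Quotient.field M
  have hF : GoodF 2 (FF M) := H50.fld 2 Nat.prime_two M (by exact_mod_cast hM2)
  have := Fintype.ofFinite H
  have hfin : (IrrE M b).Finite := irr_finite'.subset (fun χ h => h.1)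
  obtain ⟨C, B, _, _, _, _, q, r, hq, hr, hqc, hrc, hpc, hq2, hr2, hp4, hmem⟩ :=
    four hu hv huv huc hvc
  have hp : Function.Surjective (r.comp q) := hr.comp hq
  -- at most four characters
  have hle4 : (IrrE M b).ncard ≤ 4 := by
    have e0 : rk b (cfs (FF M) H) = (IrrE M b).ncard := H50.chp_main hb.1
    have e1 := cqu (FF M) hF H C q hq hqc hq2 b hb.1
    have e2 := cqu (FF M) hF C B r hr hrc hr2 (H75.push q b) (H75.push_isIdem hq hb.1)
    rw [← push_comp] at e2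
    have e3 := cdz (FF M) hF H B (r.comp q) hp hpc hp4 b hb h8
    omega
  -- the degrees
  have hdeg : ∀ χ : H → ℂ, ∃ d : ℕ, χ ∈ IrrE M b → 0 < d ∧ χ 1 = d := by
    intro χ
    by_cases h : χ ∈ IrrE M b
    · obtain ⟨d, h1, h2⟩ := irr_one h.1
      exact ⟨d, fun _ => ⟨h1, h2⟩⟩
    · exact ⟨0, fun h' => absurd h' h⟩
  choose d hd using hdeg
  have hsg : ∀ z : H, z ∈ Subgroup.center H → z * z = 1 → ∀ χ : H → ℂ, ∃ s : ℤ,
      χ ∈ IrrE M b → (s = 1 ∨ s = -1) ∧ χ z / χ 1 = s := by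
    intro z hz h2 χ
    by_cases h : χ ∈ IrrE M b
    · obtain ⟨s, h1, h2⟩ := sign h.1 hz h2
      exact ⟨s, fun _ => ⟨h1, h2⟩⟩
    · exact ⟨0, fun h' => absurd h' h⟩
  choose eu heu using hsg u huc hu.sq
  choose ev hev using hsg v hvc hv.sq
  have huvI : Inv2 (u * v) := by
    constructor
    · have h1 : u * v * (u * v) = (u * u) * (v * v) := by
        rw [mul_assoc, ← mul_assoc v u v, Subgroup.mem_center_iff.1 huc v]
        simp only [mul_assoc]
      rw [h1, hu.sq, hv.sq, one_mul]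
    · intro h
      apply huv
      rw [mul_eq_one_iff_eq_inv] at h
      rw [h]
      exact inv_eq_of_mul_eq_one_right hv.sq
  have hsum : ∀ z : H, Inv2 z → ∑ χ ∈ hfin.toFinset, χ 1 * χ z = 0 := by
    intro z hz
    have h1 := lin M hM2 H b hb.1 z hz
    have hzi : z⁻¹ = z := inv_eq_of_mul_eq_one_right hz.sq
    have h2 : (Nat.card H : ℂ)⁻¹ * ∑ᶠ χ ∈ IrrE M b, χ 1 * χ z⁻¹ = 0 := h1
    rw [hzi, mul_eq_zero, inv_eq_zero] at h2
    rcases h2 with h2 | h2
    · exact absurd h2 (by exact_mod_cast Nat.card_pos.ne')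
    · rw [finsum_mem_eq_finite_toFinset_sum _ hfin] at h2
      exact h2
  have hS : ∀ χ ∈ hfin.toFinset, χ ∈ IrrE M b := fun χ h => (Set.Finite.mem_toFinset hfin).1 h
  have hval : ∀ χ ∈ IrrE M b, χ u = (d χ : ℂ) * eu χ ∧ χ v = (d χ : ℂ) * ev χ ∧
      χ (u * v) = (d χ : ℂ) * (eu χ * ev χ) := by
    intro χ h
    have h1 : χ 1 ≠ 0 := irr_one_ne h.1
    have a1 := (heu χ h).2
    have a2 := (hev χ h).2
    rw [div_eq_iff h1, (hd χ h).2] at a1 a2
    refine ⟨by rw [a1]; ring, by rw [a2]; ring, ?_⟩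
    rw [central_mul h.1 huc, (heu χ h).2, a2]
    ring
  have k1 : ∑ χ ∈ hfin.toFinset, (d χ : ℤ) ^ 2 * eu χ = 0 := by
    have h1 := hsum u hu
    rw [Finset.sum_congr rfl (fun χ hχ => by
      rw [(hd χ (hS χ hχ)).2, (hval χ (hS χ hχ)).1] :
      ∀ χ ∈ hfin.toFinset, χ 1 * χ u = (d χ : ℂ) * ((d χ : ℂ) * eu χ))] at h1
    have h2 : ((∑ χ ∈ hfin.toFinset, (d χ : ℤ) ^ 2 * eu χ : ℤ) : ℂ) = 0 := by
      push_cast
      rw [← h1]
      exact Finset.sum_congr rfl fun χ _ => by ring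
    exact_mod_cast h2
  have k2 : ∑ χ ∈ hfin.toFinset, (d χ : ℤ) ^ 2 * ev χ = 0 := by
    have h1 := hsum v hv
    rw [Finset.sum_congr rfl (fun χ hχ => by
      rw [(hd χ (hS χ hχ)).2, (hval χ (hS χ hχ)).2.1] :
      ∀ χ ∈ hfin.toFinset, χ 1 * χ v = (d χ : ℂ) * ((d χ : ℂ) * ev χ))] at h1
    have h2 : ((∑ χ ∈ hfin.toFinset, (d χ : ℤ) ^ 2 * ev χ : ℤ) : ℂ) = 0 := by
      push_cast
      rw [← h1]
      exact Finset.sum_congr rfl fun χ _ => by ring
    exact_mod_cast h2
  have k3 : ∑ χ ∈ hfin.toFinset, (d χ : ℤ) ^ 2 * (eu χ * ev χ) = 0 := by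
    have h1 := hsum (u * v) huvI
    rw [Finset.sum_congr rfl (fun χ hχ => by
      rw [(hd χ (hS χ hχ)).2, (hval χ (hS χ hχ)).2.2] :
      ∀ χ ∈ hfin.toFinset, χ 1 * χ (u * v) = (d χ : ℂ) * ((d χ : ℂ) * (eu χ * ev χ)))] at h1
    have h2 : ((∑ χ ∈ hfin.toFinset, (d χ : ℤ) ^ 2 * (eu χ * ev χ) : ℤ) : ℂ) = 0 := by
      push_cast
      rw [← h1]
      exact Finset.sum_congr rfl fun χ _ => by ring
    exact_mod_cast h2
  have hcard : (IrrE M b).ncard = hfin.toFinset.card := Set.ncard_eq_toFinset_card _ hfin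
  have hne : hfin.toFinset.Nonempty := by
    obtain ⟨χ, h1, h2⟩ := H50.exists_irr_res hb.1 hb.2.1
    exact ⟨χ, (Set.Finite.mem_toFinset hfin).2 ⟨h1, h2⟩⟩
  obtain ⟨c4, a, ha, χ, hχ, hχu, hχv⟩ := comb hfin.toFinset d eu ev
    (fun χ h => (hd χ (hS χ h)).1) (fun χ h => (heu χ (hS χ h)).1)
    (fun χ h => (hev χ (hS χ h)).1) (by rw [← hcard]; exact hle4) hne k1 k2 k3
  have hχS := hS χ hχ
  have h1a : χ 1 = a := by rw [(hd χ hχS).2, ha χ hχ]
  refine ⟨a, by rw [hcard, c4], ?_, ?_, ?_⟩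
  · intro θ hθ
    rw [(hd θ hθ).2, ha θ ((Set.Finite.mem_toFinset hfin).2 hθ)]
  · have h2 := hgt M hM2 H b hb.1 h8 χ hχS
    rw [h1a] at h2
    exact h2
  · -- the character of the quotient
    have hker : ∀ z ∈ (r.comp q).ker, χ z = χ 1 := by
      intro z hz
      have e1 := hval χ hχS
      have e2 : χ 1 = (d χ : ℂ) := (hd χ hχS).2
      rw [hχu, hχv] at e1
      rcases hmem z hz with rfl | rfl | rfl | rfl
      · rfl
      · rw [e1.1, e2]; push_cast; ring
      · rw [e1.2.1, e2]; push_cast; ring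
      · rw [e1.2.2, e2]; push_cast; ring
    obtain ⟨χ', hχ', hch⟩ := descend (r.comp q) hp hχS.1 hpc hker
    have h2 := codeg_int hχ'
    have h3 : χ' 1 = a := by
      have := hch 1
      rw [map_one] at this
      rw [this, h1a]
    rw [h3] at h2
    have h4 : (Nat.card H : ℂ) = 4 * Nat.card B := by
      have h5 := H75.card_comap hp ⊤
      rw [Subgroup.comap_top, Subgroup.card_top, Subgroup.card_top, hp4] at h5
      rw [h5]
      push_cast
      ring
    have h5 : (Nat.card H / (4 * a) : ℂ) = Nat.card B / a := by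
      rw [h4]
      rw [mul_div_mul_left _ _ (by norm_num : (4 : ℂ) ≠ 0)]
    rw [h5]
    exact RM_of_int h2

end Pool.Agent.PP.KF.H32
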